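import Mathlib
import Pool.Agent.Lib.helper21.Tens

set_option autoImplicit false

namespace Pool.Agent.Results.MP_0a3202_lc.Counter

open Filter FirstOrder FirstOrder.Language Pool.Agent.Lib.helper21.Tens

abbrev L : FirstOrder.Language.{0, 0} :=
  ⟨fun n => (Fin n → ℕ+) → ℕ+, fun n => (Fin n → ℕ+) → Prop⟩

def fsym {n : ℕ} (f : L.Functions n) : (Fin n → ℕ+) → ℕ+ := f

def rsym {n : ℕ} (R : L.Relations n) : (Fin n → ℕ+) → Prop := R

def rel {n : ℕ} (R : (Fin n → ℕ+) → Prop) : L.Relations n := R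

instance std : L.Structure ℕ+ where
  funMap f x := fsym f x
  RelMap R x := rsym R x

def star (M : Type) [L.Structure M] (A : Set ℕ+) : Set M :=
  {x | Structure.RelMap (rel fun v : Fin 1 → ℕ+ => v 0 ∈ A) ![x]}

def SDvd (M : Type) [L.Structure M] (x y : M) : Prop :=
  Structure.RelMap (rel fun v : Fin 2 → ℕ+ => v 0 ∣ v 1) ![x, y]

def mu (M : Type) [L.Structure M] (F : Ultrafilter ℕ+) : Set M := ⋂ A ∈ F, star M A

def IsExt (M : Type) [L.Structure M] : Prop :=
  L.ElementarilyEquivalent ℕ+ M ∧ ∀ F, (mu M F).Nonempty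

def sf (M : Type) [L.Structure M] (f : ℕ+ → ℕ+) (w : M) : M :=
  Structure.funMap (L := L) (n := 1) (fun v => f (v 0)) ![w]

lemma const_eq {M : Type} (w : M) : (fun _ : Fin 1 => w) = ![w] := by
  ext i; fin_cases i; rfl

lemma tr {M : Type} [L.Structure M] (h : L.ElementarilyEquivalent ℕ+ M) {n : ℕ}
    (R : Set (Fin n → ℕ+)) (f : Fin n → ℕ+ → ℕ+) (w : M) :
    w ∈ star M {a | (fun i => f i a) ∈ R} ↔
      Structure.RelMap (L := L) (n := n) R fun i => sf M (f i) w := by
  have := (h.realize_sentence (∀' (Relations.boundedFormula (L := L) (n := 1) (l := 1)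
    {v | (fun i => f i (v 0)) ∈ R} (fun _ => &0) ⇔
      Relations.boundedFormula (L := L) (n := n) (l := 1) R
      fun i => Term.func (l := 1) (fun v => f i (v 0)) fun _ => &0))).1 (by
      simp only [Sentence.Realize, Formula.Realize, BoundedFormula.realize_all,
        BoundedFormula.realize_iff, BoundedFormula.realize_rel]
      intro a
      exact Iff.rfl)
  simp only [Sentence.Realize, Formula.Realize, BoundedFormula.realize_all,
    BoundedFormula.realize_iff, BoundedFormula.realize_rel] at this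
  have h2 := this w
  simp only [Term.realize, Function.comp, Sum.elim_inr] at h2
  rw [show (Fin.snoc (default : Fin 0 → M) w : Fin 1 → M) 0 = w from rfl, const_eq] at h2
  exact h2

lemma disj {M : Type} [L.Structure M] (h : L.ElementarilyEquivalent ℕ+ M) (B : Set ℕ+) (w : M)
    (h1 : w ∈ star M B) : w ∉ star M Bᶜ := by
  have := (h.realize_sentence (∀' (Relations.boundedFormula (L := L) (n := 1) (l := 1)
    {v | v 0 ∈ B} (fun _ => &0) ⟹ ∼(Relations.boundedFormula (L := L) (n := 1) (l := 1)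
    {v | v 0 ∈ Bᶜ} (fun _ => &0))))).1 (by
      simp only [Sentence.Realize, Formula.Realize, BoundedFormula.realize_all,
        BoundedFormula.realize_imp, BoundedFormula.realize_not, BoundedFormula.realize_rel]
      intro a ha hb
      exact hb ha)
  simp only [Sentence.Realize, Formula.Realize, BoundedFormula.realize_all,
    BoundedFormula.realize_imp, BoundedFormula.realize_not, BoundedFormula.realize_rel] at this
  have h2 := this w
  simp only [Term.realize, Function.comp, Sum.elim_inr] at h2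
  rw [show (Fin.snoc (default : Fin 0 → M) w : Fin 1 → M) 0 = w from rfl, const_eq] at h2
  exact h2 h1

lemma tr1 {M : Type} [L.Structure M] (h : L.ElementarilyEquivalent ℕ+ M) (A : Set ℕ+)
    (f : ℕ+ → ℕ+) (w : M) : w ∈ star M (f ⁻¹' A) ↔ sf M f w ∈ star M A := by
  have := tr h (n := 1) {v | v 0 ∈ A} (fun _ => f) w
  rw [const_eq] at this
  exact this

lemma tr2 {M : Type} [L.Structure M] (h : L.ElementarilyEquivalent ℕ+ M)
    (f g : ℕ+ → ℕ+) (w : M) (hw : w ∈ star M {a | f a ∣ g a}) :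
    SDvd M (sf M f w) (sf M g w) := by
  have := (tr h (n := 2) {v | v 0 ∣ v 1} ![f, g] w).1 hw
  have e : (fun i => sf M (![f, g] i) w) = ![sf M f w, sf M g w] := by
    ext i; fin_cases i <;> rfl
  rw [e] at this
  exact this

lemma exists_ext : ∃ (M : Type) (_ : L.Structure M), IsExt M := by
  obtain ⟨J, E, hE⟩ := exists_univ ℕ+
  refine ⟨(E : Filter J).Product fun _ => ℕ+, inferInstance, ?_, fun F => ?_⟩
  · refine elementarilyEquivalent_iff.2 fun φ => ?_
    rw [Ultraproduct.sentence_realize]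
    simp
  · obtain ⟨f, hf⟩ := hE F
    refine ⟨(f : (E : Filter J).Product fun _ => ℕ+), Set.mem_iInter₂.2 fun A hA => ?_⟩
    have := (Ultraproduct.realize_formula_cast (L := L) (u := E) (M := fun _ => ℕ+)
      (Relations.formula (L := L) (n := 1) {v | v 0 ∈ A} fun _ => Term.var ()) fun _ => f).2 (hf hA)
    simp only [Formula.realize_rel, Term.realize] at this
    rw [const_eq] at this
    exact this

theorem result : (∃ (M : Type) (_ : L.Structure M), IsExt M) ∧
    ∀ (M : Type) [L.Structure M], IsExt M → ∃ F : Ultrafilter ℕ+, ∃ x ∈ mu M F, ∃ y ∈ mu M F,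
      ∃ z, SDvd M x z ∧ SDvd M z y ∧ z ∉ mu M F := by
  refine ⟨exists_ext, fun M _ ⟨h, hm⟩ => ?_⟩
  let D := hyperfilter ℕ
  let e : ℕ × ℕ ≃ ℕ+ := Denumerable.equiv₂ _ _
  obtain ⟨w, hw⟩ := hm ((tens D D).map e)
  have hw' : ∀ p : ℕ × ℕ → Prop, (∀ᶠ x in (tens D D : Filter (ℕ × ℕ)), p x) →
      w ∈ star M {a | p (e.symm a)} := fun p hp =>
    Set.mem_iInter₂.1 hw _ (Ultrafilter.mem_map.2 (by simpa [Filter.Eventually] using hp))
  refine ⟨D.map fun a => 4 ^ a, sf M (fun a => 4 ^ (e.symm a).1) w, ?_,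
    sf M (fun a => 4 ^ (e.symm a).2) w, ?_, sf M (fun a => 2 * 4 ^ (e.symm a).1) w, ?_, ?_, ?_⟩
  · exact Set.mem_iInter₂.2 fun A hA => (tr1 h A _ w).1
      (hw' (fun x => 4 ^ x.1 ∈ A) (tendsto_fst D D hA))
  · exact Set.mem_iInter₂.2 fun A hA => (tr1 h A _ w).1
      (hw' (fun x => 4 ^ x.2 ∈ A) (tendsto_snd D D hA))
  · exact tr2 h _ _ w (hw' (fun x => (4 : ℕ+) ^ x.1 ∣ 2 * 4 ^ x.1)
      (Eventually.of_forall fun x => Dvd.intro_left _ rfl))
  · refine tr2 h _ _ w (hw' (fun x => (2 : ℕ+) * 4 ^ x.1 ∣ 4 ^ x.2) ((ev_tens D D _).2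
      (Eventually.of_forall fun a => Nat.hyperfilter_le_atTop ?_)))
    filter_upwards [eventually_gt_atTop a] with b hb
    refine dvd_trans ⟨2, ?_⟩ (pow_dvd_pow 4 (Nat.succ_le_of_lt hb))
    rw [pow_succ, mul_comm 2, mul_assoc]
    rfl
  · intro hz
    have h1 := (tr1 h _ _ w).2 (Set.mem_iInter₂.1 hz (Set.range fun a : ℕ => (4 : ℕ+) ^ a)
      range_mem_map)
    refine disj h _ w h1 (hw' (fun x => ¬ (2 * 4 ^ x.1 ∈ Set.range fun a : ℕ => (4 : ℕ+) ^ a))
      (Eventually.of_forall fun x ⟨a, ha⟩ => ?_))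
    have h2 : 4 ^ a = 2 * 4 ^ x.1 := by simpa using congrArg PNat.val ha
    rw [show 4 = 2 ^ 2 from rfl, ← pow_mul, ← pow_mul, ← pow_succ'] at h2
    have := Nat.pow_right_injective (le_refl 2) h2
    omega

end Pool.Agent.Results.MP_0a3202_lc.Counter
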